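import Pool.Agent.W2helper3.BQ.Stm

/-!
# A differential inequality of Gronwall type for powers of the norm
-/

set_option autoImplicit false

open MeasureTheory Set Filter Topology

namespace Pool.Agent.W2helper33.BQ

open Pool.Agent.W2helper3.BQ

/-- The inequality for `v ≥ 0`. -/
theorem grow_nonneg (p : ℝ) (hp : 4 ≤ p) (x : ℝ → ℂ) (E : ℝ → ℝ) (hx : ContDiff ℝ 1 x)
    (hE : Continuous E) (h : ∀ u, p / 2 * ‖x u‖ ^ (p - 2) * (p * ‖deriv x u‖) ^ 2 ≤ E u)
    (u v : ℝ) (hv : 0 ≤ v) :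
    ‖x (u + v)‖ ^ p ≤ Real.exp (v / 8) * (‖x u‖ ^ p + 4 / p * ∫ t in u..(u + v), E t) := by
  have hp0 : 0 < p := by linarith
  have hE0 : ∀ s, 0 ≤ E s := fun s => le_trans (by positivity) (h s)
  have hdx : ∀ s, HasDerivAt x (deriv x s) s := fun s =>
    (hx.differentiable one_ne_zero s).hasDerivAt
  have hf : ∀ s, HasDerivAt (fun s => ‖x s‖ ^ p)
      (((p * ‖x s‖ ^ (p - 2)) • innerSL ℝ (x s)) (deriv x s)) s := fun s =>
    (hasFDerivAt_norm_rpow (x s) (by linarith : 1 < p)).comp_hasDerivAt s (hdx s)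
  have hbd : ∀ s, ((p * ‖x s‖ ^ (p - 2)) • innerSL ℝ (x s)) (deriv x s) ≤
      ‖x s‖ ^ p / 8 + 4 / p * E s := by
    intro s
    have h1 : ((p * ‖x s‖ ^ (p - 2)) • innerSL ℝ (x s)) (deriv x s) =
        p * ‖x s‖ ^ (p - 2) * inner ℝ (x s) (deriv x s) := rfl
    have h2 : inner ℝ (x s) (deriv x s) ≤ ‖x s‖ * ‖deriv x s‖ := real_inner_le_norm _ _
    have h3 : 0 ≤ ‖x s‖ ^ (p - 2) := Real.rpow_nonneg (norm_nonneg _) _
    have h4 : ‖x s‖ ^ p = ‖x s‖ ^ (p - 2) * ‖x s‖ ^ 2 := by
      rw [← Real.rpow_natCast, ← Real.rpow_add' (norm_nonneg _) (by push_cast; linarith)]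
      congr 1
      push_cast
      ring
    have h5 := h s
    have h6 : 4 / p * (p / 2 * ‖x s‖ ^ (p - 2) * (p * ‖deriv x s‖) ^ 2) ≤ 4 / p * E s :=
      mul_le_mul_of_nonneg_left h5 (by positivity)
    have h7 : 4 / p * (p / 2 * ‖x s‖ ^ (p - 2) * (p * ‖deriv x s‖) ^ 2) =
        2 * ‖x s‖ ^ (p - 2) * (p * ‖deriv x s‖) ^ 2 := by
      field_simp
      ring
    rw [h1, h4]
    rw [h7] at h6
    have h8 : p * ‖x s‖ ^ (p - 2) * inner ℝ (x s) (deriv x s) ≤
        ‖x s‖ ^ (p - 2) * (‖x s‖ * (p * ‖deriv x s‖)) := by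
      have h9 := mul_le_mul_of_nonneg_left h2 (mul_nonneg hp0.le h3)
      linarith
    have h10 : ‖x s‖ * (p * ‖deriv x s‖) ≤ ‖x s‖ ^ 2 / 8 + 2 * (p * ‖deriv x s‖) ^ 2 := by
      nlinarith [sq_nonneg (‖x s‖ - 4 * (p * ‖deriv x s‖))]
    have h11 := mul_le_mul_of_nonneg_left h10 h3
    linarith
  -- the auxiliary function
  set g : ℝ → ℝ := fun w => Real.exp (-w / 8) * ‖x (u + w)‖ ^ p -
    4 / p * ∫ t in u..(u + w), E t with hg
  have hgd : ∀ w, HasDerivAt g (Real.exp (-w / 8) * (-1 / 8) * ‖x (u + w)‖ ^ p +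
      Real.exp (-w / 8) * (((p * ‖x (u + w)‖ ^ (p - 2)) • innerSL ℝ (x (u + w)))
        (deriv x (u + w))) - 4 / p * E (u + w)) w := by
    intro w
    have e1 : HasDerivAt (fun w : ℝ => Real.exp (-w / 8)) (Real.exp (-w / 8) * (-1 / 8)) w :=
      ((hasDerivAt_id w).neg.div_const 8).exp
    have e2 : HasDerivAt (fun w : ℝ => ‖x (u + w)‖ ^ p)
        (((p * ‖x (u + w)‖ ^ (p - 2)) • innerSL ℝ (x (u + w))) (deriv x (u + w))) w := by
      have := (hf (u + w)).comp_const_add u w
      exact this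
    have e3 : HasDerivAt (fun w : ℝ => ∫ t in u..(u + w), E t) (E (u + w)) w := by
      have h0 : HasDerivAt (fun y : ℝ => ∫ t in u..y, E t) (E (u + w)) (u + w) :=
        intervalIntegral.integral_hasDerivAt_right (hE.intervalIntegrable _ _)
          (hE.stronglyMeasurableAtFilter _ _) hE.continuousAt
      exact h0.comp_const_add u w
    exact (e1.mul e2).sub (e3.const_mul _)
  have hanti : AntitoneOn g (Set.Ici 0) := by
    refine antitoneOn_of_deriv_nonpos (convex_Ici 0)
      (fun w _ => (hgd w).continuousAt.continuousWithinAt)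
      (fun w _ => (hgd w).differentiableAt.differentiableWithinAt) fun w hw => ?_
    rw [interior_Ici] at hw
    rw [(hgd w).deriv]
    have h1 := hbd (u + w)
    have h2 : 0 < Real.exp (-w / 8) := Real.exp_pos _
    have h3 : Real.exp (-w / 8) ≤ 1 := by
      rw [Real.exp_le_one_iff]
      have : (0 : ℝ) < w := hw
      linarith
    have h4 := mul_le_mul_of_nonneg_left h1 h2.le
    have h5 : Real.exp (-w / 8) * (4 / p * E (u + w)) ≤ 1 * (4 / p * E (u + w)) :=
      mul_le_mul_of_nonneg_right h3 (mul_nonneg (by positivity) (hE0 _))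
    linarith
  have h1 := hanti (Set.mem_Ici.2 le_rfl) (Set.mem_Ici.2 hv) hv
  simp only [hg, neg_zero, zero_div, Real.exp_zero, one_mul, add_zero,
    intervalIntegral.integral_same, mul_zero, sub_zero] at h1
  have h2 : Real.exp (-v / 8) * ‖x (u + v)‖ ^ p ≤ ‖x u‖ ^ p + 4 / p * ∫ t in u..(u + v), E t := by
    linarith
  have h3 := mul_le_mul_of_nonneg_left h2 (Real.exp_pos (v / 8)).le
  rw [← mul_assoc, ← Real.exp_add] at h3
  have h4 : v / 8 + -v / 8 = 0 := by ring
  rw [h4, Real.exp_zero, one_mul] at h3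
  exact h3

theorem p_GR : P_GR := by
  intro p hp x E hx hE h u v
  have hE0 : ∀ s, 0 ≤ E s := fun s => le_trans (by positivity) (h s)
  rcases le_total 0 v with hv | hv
  · rw [abs_of_nonneg hv, abs_of_nonneg (intervalIntegral.integral_nonneg (by linarith)
      fun s _ => hE0 s)]
    exact grow_nonneg p hp x E hx hE h u v hv
  · have hd : ∀ s, deriv (fun s => x (-s)) s = - deriv x (-s) := by
      intro s
      rw [deriv_comp_neg]
    have h1 := grow_nonneg p hp (fun s => x (-s)) (fun s => E (-s)) (hx.comp contDiff_neg)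
      (hE.comp continuous_neg) (fun s => by
        rw [hd, norm_neg]
        exact h (-s)) (-u) (-v) (by linarith)
    have h2 : (∫ t in (-u)..(-u + -v), E (-t)) = ∫ t in (u + v)..u, E t := by
      rw [intervalIntegral.integral_comp_neg fun t => E t]
      congr 1
      · ring
      · ring
    rw [h2] at h1
    simp only [neg_neg] at h1
    rw [abs_of_nonpos hv]
    have h3 : |∫ t in u..(u + v), E t| = ∫ t in (u + v)..u, E t := by
      rw [intervalIntegral.integral_symm, abs_neg, abs_of_nonneg]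
      exact intervalIntegral.integral_nonneg (by linarith) fun s _ => hE0 s
    rw [h3]
    have h4 : -(-u + -v) = u + v := by ring
    rw [h4] at h1
    exact h1

end Pool.Agent.W2helper33.BQ
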