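import Pool.Agent.W2helper3.BQ.Stm

/-!
# An inequality of Jensen type
-/

set_option autoImplicit false

open MeasureTheory Set Filter Topology

namespace Pool.Agent.W2helper33.BQ

open Pool.Agent.W2helper3.BQ

theorem integral_exp_abs {b : ℝ} (hb : 0 < b) : ∫ v : ℝ, Real.exp (-|v| / b) = 2 * b := by
  have h1 := integral_comp_abs (f := fun x : ℝ => Real.exp (-x / b))
  rw [h1]
  have h2 : ∀ x : ℝ, Real.exp (-x / b) = Real.exp ((-1 / b) * x) := fun x => by
    congr 1
    ring
  simp only [h2]
  rw [integral_exp_mul_Ioi (div_neg_of_neg_of_pos (by norm_num) hb)]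
  rw [mul_zero, Real.exp_zero]
  field_simp

theorem integrable_exp_abs {b : ℝ} (hb : 0 < b) : Integrable fun v : ℝ => Real.exp (-|v| / b) := by
  by_contra h
  have h1 := integral_undef h
  rw [integral_exp_abs hb] at h1
  linarith

/-- the function `Φ` -/
noncomputable def ph (X p w : ℝ) : ℝ := w ^ 2 * (X + w) ^ (p - 2)

theorem ph_nonneg {X p w : ℝ} (hX : 0 ≤ X) (hw : 0 ≤ w) : 0 ≤ ph X p w := by
  unfold ph
  have : 0 ≤ (X + w) ^ (p - 2) := Real.rpow_nonneg (by linarith) _
  positivity

theorem ph_mono {X p : ℝ} (hX : 0 ≤ X) (hp : 4 ≤ p) {w w' : ℝ} (hw : 0 ≤ w) (h : w ≤ w') :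
    ph X p w ≤ ph X p w' := by
  unfold ph
  have h1 : (X + w) ^ (p - 2) ≤ (X + w') ^ (p - 2) :=
    Real.rpow_le_rpow (by linarith) (by linarith) (by linarith)
  have h2 : w ^ 2 ≤ w' ^ 2 := by nlinarith
  exact mul_le_mul h2 h1 (Real.rpow_nonneg (by linarith) _) (by positivity)

theorem continuous_ph (X : ℝ) {p : ℝ} (hp : 4 ≤ p) : Continuous (ph X p) := by
  unfold ph
  refine (continuous_pow 2).mul ?_
  exact (continuous_const.add continuous_id).rpow_const fun _ => Or.inr (by linarith)

theorem convexOn_ph {X p : ℝ} (hX : 0 ≤ X) (hp : 4 ≤ p) : ConvexOn ℝ (Set.Ici 0) (ph X p) := by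
  have h1 : ConvexOn ℝ (Set.Ici (0 : ℝ)) (fun w : ℝ => w ^ 2) := convexOn_pow 2
  have h2 : ConvexOn ℝ (Set.Ici (0 : ℝ)) (fun w : ℝ => (X + w) ^ (p - 2)) := by
    have h3 := convexOn_rpow (p := p - 2) (by linarith)
    refine ⟨convex_Ici 0, fun a ha b hb s t hs ht hst => ?_⟩
    have h4 := h3.2 (x := X + a) (Set.mem_Ici.2 (add_nonneg hX ha)) (y := X + b)
      (Set.mem_Ici.2 (add_nonneg hX hb)) hs ht hst
    have h5 : X + (s • a + t • b) = s • (X + a) + t • (X + b) := by
      simp only [smul_eq_mul]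
      have : X = (s + t) * X := by rw [hst, one_mul]
      linear_combination this
    simp only
    rw [h5]
    exact h4
  refine h1.mul h2 (fun w _ => sq_nonneg w)
    (fun w hw => Real.rpow_nonneg (add_nonneg hX hw) _) ?_
  refine MonotoneOn.monovaryOn ?_ ?_
  · intro a ha b hb hab
    have ha : (0 : ℝ) ≤ a := ha
    simp only
    nlinarith
  · intro a ha b hb hab
    exact Real.rpow_le_rpow (add_nonneg hX ha) (by linarith) (by linarith)

theorem jensen {X p : ℝ} (hX : 0 ≤ X) (hp : 4 ≤ p) (y : ℝ → ℝ) (hy : Continuous y)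
    (hys : HasCompactSupport y) (hy0 : ∀ v, 0 ≤ y v) :
    ph X p (∫ v, Real.exp (-|v| / 4) / 8 * y v) ≤ ∫ v, Real.exp (-|v| / 4) / 8 * ph X p (y v) := by
  set k : ℝ → ℝ := fun v => Real.exp (-|v| / 4) / 8 with hk
  have hkc : Continuous k := by
    rw [hk]
    fun_prop
  have hk0 : ∀ v, 0 ≤ k v := fun v => by
    rw [hk]
    positivity
  have hki : Integrable k := (integrable_exp_abs (b := 4) (by norm_num)).div_const 8
  have hk1 : ∫ v, k v = 1 := by
    rw [hk, integral_div, integral_exp_abs (by norm_num)]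
    norm_num
  set μ : Measure ℝ := volume.withDensity fun v => ENNReal.ofReal (k v) with hμ
  have hmeas : Measurable fun v => ENNReal.ofReal (k v) := hkc.measurable.ennreal_ofReal
  have hlt : ∀ᵐ v ∂(volume : Measure ℝ), ENNReal.ofReal (k v) < ⊤ :=
    Filter.Eventually.of_forall fun v => ENNReal.ofReal_lt_top
  have hprob : IsProbabilityMeasure μ := by
    refine ⟨?_⟩
    rw [hμ, withDensity_apply _ MeasurableSet.univ, Measure.restrict_univ,
      ← ofReal_integral_eq_lintegral_ofReal hki (Filter.Eventually.of_forall hk0), hk1,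
      ENNReal.ofReal_one]
  have hint : ∀ f : ℝ → ℝ, ∫ v, f v ∂μ = ∫ v, k v * f v := by
    intro f
    rw [hμ, integral_withDensity_eq_integral_toReal_smul hmeas hlt]
    refine integral_congr_ae (Filter.Eventually.of_forall fun v => ?_)
    simp only [smul_eq_mul]
    rw [ENNReal.toReal_ofReal (hk0 v)]
  have hinte : ∀ f : ℝ → ℝ, Integrable (fun v => k v * f v) → Integrable f μ := by
    intro f hf
    rw [hμ, integrable_withDensity_iff_integrable_smul' hmeas hlt]
    refine hf.congr (Filter.Eventually.of_forall fun v => ?_)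
    simp only [smul_eq_mul]
    rw [ENNReal.toReal_ofReal (hk0 v)]
  have hph0 : ph X p 0 = 0 := by
    unfold ph
    ring
  have hy2 : HasCompactSupport fun v => ph X p (y v) := hys.comp_left hph0
  have h1 := (convexOn_ph hX hp).map_integral_le (μ := μ) (f := y)
    (continuous_ph X hp).continuousOn isClosed_Ici
    (Filter.Eventually.of_forall fun v => hy0 v)
    (hinte y ((hkc.mul hy).integrable_of_hasCompactSupport hys.mul_left))
    (hinte _ ((hkc.mul ((continuous_ph X hp).comp hy)).integrable_of_hasCompactSupport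
      hy2.mul_left))
  rw [hint, hint] at h1
  exact h1

theorem p_JE : P_JE := by
  intro C p hC hp A X hA hAs hA0 hX u
  have hp0 : 0 < p := by linarith
  set y : ℝ → ℝ := fun v => 16 * C * A (u + v) / p with hy
  have hyc : Continuous y := by
    rw [hy]
    fun_prop
  have hys : HasCompactSupport y := by
    have h1 : HasCompactSupport fun v => A (u + v) := hAs.comp_homeomorph (Homeomorph.addLeft u)
    exact h1.comp_left (g := fun a => 16 * C * a / p) (by simp)
  have hy0 : ∀ v, 0 ≤ y v := fun v => by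
    have := hA0 (u + v)
    rw [hy]
    positivity
  have hJ := jensen hX hp y hyc hys hy0
  -- the two parts of the majorant
  set w₁ : ℝ := C / p * A u with hw₁
  set w₂ : ℝ := C / p * ∫ v, Real.exp (-|v| / 4) * A (u + v) with hw₂
  have hw₁0 : 0 ≤ w₁ := mul_nonneg (by positivity) (hA0 u)
  have hI0 : 0 ≤ ∫ v, Real.exp (-|v| / 4) * A (u + v) :=
    integral_nonneg fun v => mul_nonneg (Real.exp_pos _).le (hA0 _)
  have hw₂0 : 0 ≤ w₂ := mul_nonneg (by positivity) hI0
  have hW : WW C p A u = w₁ + w₂ := by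
    unfold WW
    rw [hw₁, hw₂]
    ring
  have hw₂' : 2 * w₂ = ∫ v, Real.exp (-|v| / 4) / 8 * y v := by
    rw [hw₂, ← mul_assoc, ← integral_const_mul]
    refine integral_congr_ae (Filter.Eventually.of_forall fun v => ?_)
    simp only [hy]
    ring
  have hW0 : 0 ≤ w₁ + w₂ := add_nonneg hw₁0 hw₂0
  have hPhi : ph X p (w₁ + w₂) ≤ ph X p (16 * C * A u / p) +
      ∫ v, Real.exp (-|v| / 4) * ph X p (y v) := by
    have h1 : 0 ≤ ∫ v, Real.exp (-|v| / 4) * ph X p (y v) :=
      integral_nonneg fun v => mul_nonneg (Real.exp_pos _).le (ph_nonneg hX (hy0 v))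
    have h2 : 0 ≤ ph X p (16 * C * A u / p) := by
      have := hy0 0
      simp only [hy, add_zero] at this
      exact ph_nonneg hX this
    rcases le_total w₁ w₂ with h | h
    · have h3 : ph X p (w₁ + w₂) ≤ ph X p (2 * w₂) := ph_mono hX hp hW0 (by linarith)
      have h4 : ∫ v, Real.exp (-|v| / 4) / 8 * ph X p (y v) ≤
          ∫ v, Real.exp (-|v| / 4) * ph X p (y v) := by
        have h5 : ∫ v, Real.exp (-|v| / 4) / 8 * ph X p (y v) =
            1 / 8 * ∫ v, Real.exp (-|v| / 4) * ph X p (y v) := by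
          rw [← integral_const_mul]
          refine integral_congr_ae (Filter.Eventually.of_forall fun v => ?_)
          simp only
          ring
        rw [h5]
        linarith
      rw [← hw₂'] at hJ
      linarith
    · have h3 : ph X p (w₁ + w₂) ≤ ph X p (16 * C * A u / p) := by
        refine ph_mono hX hp hW0 ?_
        have h4 : 16 * C * A u / p = 16 * w₁ := by
          rw [hw₁]
          ring
        rw [h4]
        linarith
      linarith
  have hc : 0 ≤ p ^ 2 / 2 := by positivity
  have h6 := mul_le_mul_of_nonneg_left hPhi hc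
  rw [mul_add, ← integral_const_mul] at h6
  rw [hW]
  have e1 : p ^ 2 / 2 * (w₁ + w₂) ^ 2 * (X + (w₁ + w₂)) ^ (p - 2) =
      p ^ 2 / 2 * ph X p (w₁ + w₂) := by
    unfold ph
    ring
  have e2 : p ^ 2 / 2 * (16 * C * A u / p) ^ 2 * (X + 16 * C * A u / p) ^ (p - 2) =
      p ^ 2 / 2 * ph X p (16 * C * A u / p) := by
    unfold ph
    ring
  have e3 : ∫ v, Real.exp (-|v| / 4) * (p ^ 2 / 2 * (16 * C * A (u + v) / p) ^ 2 *
      (X + 16 * C * A (u + v) / p) ^ (p - 2)) =
      ∫ v, p ^ 2 / 2 * (Real.exp (-|v| / 4) * ph X p (y v)) := by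
    refine integral_congr_ae (Filter.Eventually.of_forall fun v => ?_)
    simp only [hy, ph]
    ring
  rw [e1, e2, e3]
  exact h6

end Pool.Agent.W2helper33.BQ
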